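import Pool.Agent.Q145.LB.Fin

/-!
# Conformal changes between Landsberg metrics; no unicorn is conformal to a Berwald metric

`F` is a smooth Finsler metric on an open set `U` of `ℝⁿ` (any `n`; reversibility is not assumed) and `σ` a smooth
function on `U`. All objects are those of the problem file, in coordinates (`Pool.Agent.Y519.UN`, the definitions of the
starting file): `fund F x y i j` is the fundamental tensor `g_ij`, `nsq F x y v = g_ij v^i v^j`, `cart F x y i j k` the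
Cartan tensor `(1/2) ∂g_ij / ∂y^k`, `spr F x y` the spray coefficients `G^i`, `ber F x y i j k l` the Berwald curvature
`∂³G^i / ∂y^j ∂y^k ∂y^l`, and `lan F x y j k l = -(1/2) g_im y^m B^i_jkl` the Landsberg curvature.
-/

set_option autoImplicit false

open scoped ContDiff

namespace Pool.Agent.Results.MP_9f67e3_gt.ConformalLandsberg

open Pool.Agent.Y519.UN

variable {n : ℕ}

/-- `F` is a smooth Finsler metric on the open set `U`. -/
structure IsFinsler (U : Set (Fin n → ℝ)) (F : (Fin n → ℝ) → (Fin n → ℝ) → ℝ) : Prop where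
  smooth : ContDiffOn ℝ ∞ (fun p : (Fin n → ℝ) × (Fin n → ℝ) => F p.1 p.2) (U ×ˢ {y | y ≠ 0})
  pos : ∀ x ∈ U, ∀ y, y ≠ 0 → 0 < F x y
  hom : ∀ x ∈ U, ∀ y (t : ℝ), 0 < t → F x (t • y) = t * F x y
  convex : ∀ x ∈ U, ∀ y, y ≠ 0 → ∀ v, v ≠ 0 → 0 < nsq F x y v

/-- The Landsberg curvature vanishes. -/
def IsLandsberg (U : Set (Fin n → ℝ)) (F : (Fin n → ℝ) → (Fin n → ℝ) → ℝ) : Prop :=
  ∀ x ∈ U, ∀ y, y ≠ 0 → ∀ j k l, lan F x y j k l = 0

/-- The Berwald curvature vanishes. -/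
def IsBerwald (U : Set (Fin n → ℝ)) (F : (Fin n → ℝ) → (Fin n → ℝ) → ℝ) : Prop :=
  ∀ x ∈ U, ∀ y, y ≠ 0 → ∀ i j k l, ber F x y i j k l = 0

/-- The conformal metric `e^σ F`. -/
noncomputable def conformal (σ : (Fin n → ℝ) → ℝ) (F : (Fin n → ℝ) → (Fin n → ℝ) → ℝ) :
    (Fin n → ℝ) → (Fin n → ℝ) → ℝ := fun x y => Real.exp (σ x) * F x y

/-- `F` is Riemannian at the point `x`: its Cartan tensor vanishes and, if `n ≥ 2`, `F(x, ·)²` is a positive definite
quadratic form. -/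
def RiemannianAt (F : (Fin n → ℝ) → (Fin n → ℝ) → ℝ) (x : Fin n → ℝ) : Prop :=
  (∀ y, y ≠ 0 → ∀ i j k, cart F x y i j k = 0) ∧
  (2 ≤ n → ∃ A : Matrix (Fin n) (Fin n) ℝ, A.PosDef ∧ ∀ y, y ≠ 0 → F x y ^ 2 = ∑ i, ∑ j, A i j * y i * y j)

/-- Let `F` be a smooth Finsler metric and `σ` a smooth function on an open set `U` of `ℝⁿ`, such that the metric
`e^σ F` has vanishing Landsberg curvature.

1. If `F` has vanishing Landsberg curvature, too, then `F` is Riemannian at every point of `U` where `dσ ≠ 0`, and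
   `e^σ F` and `F` have the same Berwald curvature on all of `U`.
2. If `F` is a Berwald metric, then `e^σ F` is a Berwald metric (and `F` is Riemannian where `dσ ≠ 0`): no unicorn is
   conformal to a Berwald metric. -/
theorem result (U : Set (Fin n → ℝ)) (hU : IsOpen U) (F : (Fin n → ℝ) → (Fin n → ℝ) → ℝ) (hF : IsFinsler U F)
    (σ : (Fin n → ℝ) → ℝ) (hσ : ContDiffOn ℝ ∞ σ U) (hL : IsLandsberg U (conformal σ F)) :
    (IsLandsberg U F →
      (∀ x ∈ U, fderiv ℝ σ x ≠ 0 → RiemannianAt F x) ∧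
      (∀ x ∈ U, ∀ y, y ≠ 0 → ∀ i j k l, ber (conformal σ F) x y i j k l = ber F x y i j k l)) ∧
    (IsBerwald U F → IsBerwald U (conformal σ F) ∧ ∀ x ∈ U, fderiv ℝ σ x ≠ 0 → RiemannianAt F x) := by
  have hF' : Pool.Agent.Q145.LB.IsFinslerOn U F := ⟨hF.smooth, hF.pos, hF.hom, hF.convex⟩
  have key : IsLandsberg U F →
      (∀ x ∈ U, fderiv ℝ σ x ≠ 0 → RiemannianAt F x) ∧
      (∀ x ∈ U, ∀ y, y ≠ 0 → ∀ i j k l, ber (conformal σ F) x y i j k l = ber F x y i j k l) := by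
    intro h
    exact ⟨fun x hx hne => (Pool.Agent.Q145.LB.main hU hF' hσ h hL hx).1 hne,
      fun x hx => (Pool.Agent.Q145.LB.main hU hF' hσ h hL hx).2⟩
  refine ⟨key, fun hB => ?_⟩
  have hL0 : IsLandsberg U F := by
    intro x hx y hy j k l
    unfold lan
    simp only [hB x hx y hy, mul_zero, Finset.sum_const_zero]
  obtain ⟨h1, h2⟩ := key hL0
  exact ⟨fun x hx y hy i j k l => by rw [h2 x hx y hy, hB x hx y hy], h1⟩

end Pool.Agent.Results.MP_9f67e3_gt.ConformalLandsberg
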